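import Pool.Agent.Run7.h676.NI.Cl

/-! Piece CRIT of the project of helper676 (MP_e56c9f_al) -/

set_option autoImplicit false

open scoped commutatorElement
open Pool.Agent.Run7.h676.NI

namespace Pool.Agent.Run7.h540.NI

/-- The elements of `F` centralising `A` and central modulo `A`. -/
def critR {Γ : Type} [Group Γ] (F A : Subgroup Γ) (hA : A.Normal) : Subgroup Γ where
  carrier := {x | x ∈ F ∧ (∀ a ∈ A, x * a = a * x) ∧ ∀ y ∈ F, ⁅x, y⁆ ∈ A}
  one_mem' := ⟨F.one_mem, fun a _ => by simp, fun y _ => by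
    rw [commutatorElement_one_left]; exact A.one_mem⟩
  mul_mem' := by
    rintro x x' ⟨hx, hxA, hxF⟩ ⟨hx', hxA', hxF'⟩
    refine ⟨F.mul_mem hx hx', ?_, ?_⟩
    · intro a ha
      rw [mul_assoc, hxA' a ha, ← mul_assoc, hxA a ha, mul_assoc]
    · intro y hy
      have h1 : ⁅x * x', y⁆ = x * ⁅x', y⁆ * x⁻¹ * ⁅x, y⁆ := by
        simp only [commutatorElement_def]; group
      rw [h1]
      exact A.mul_mem (hA.conj_mem _ (hxF' y hy) x) (hxF y hy)
  inv_mem' := by
    rintro x ⟨hx, hxA, hxF⟩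
    refine ⟨F.inv_mem hx, ?_, ?_⟩
    · intro a ha
      have h1 := hxA a ha
      have h2 : x⁻¹ * (x * a) * x⁻¹ = x⁻¹ * (a * x) * x⁻¹ := by rw [h1]
      have h3 : x⁻¹ * (x * a) * x⁻¹ = a * x⁻¹ := by group
      have h4 : x⁻¹ * (a * x) * x⁻¹ = x⁻¹ * a := by group
      rw [h3, h4] at h2
      exact h2.symm
    · intro y hy
      have h1 : ⁅x⁻¹, y⁆ = x⁻¹ * ⁅x, y⁆⁻¹ * x⁻¹⁻¹ := by
        simp only [commutatorElement_def]; group
      rw [h1]
      exact hA.conj_mem _ (A.inv_mem (hxF y hy)) x⁻¹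

lemma mem_critR {Γ : Type} [Group Γ] {F A : Subgroup Γ} {hA : A.Normal} {x : Γ} :
    x ∈ critR F A hA ↔ x ∈ F ∧ (∀ a ∈ A, x * a = a * x) ∧ ∀ y ∈ F, ⁅x, y⁆ ∈ A := Iff.rfl

lemma critR_normal {Γ : Type} [Group Γ] {F A : Subgroup Γ} (hF : F.Normal) (hA : A.Normal) :
    (critR F A hA).Normal := by
  constructor
  intro x hx g
  obtain ⟨hxF, hxA, hxc⟩ := mem_critR.1 hx
  refine mem_critR.2 ⟨hF.conj_mem x hxF g, ?_, ?_⟩
  · intro a ha
    have h1 : g⁻¹ * a * g⁻¹⁻¹ ∈ A := hA.conj_mem a ha g⁻¹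
    have h2 := hxA _ h1
    have h3 : g * x * g⁻¹ * a = g * (x * (g⁻¹ * a * g⁻¹⁻¹)) * g⁻¹ := by group
    have h4 : a * (g * x * g⁻¹) = g * ((g⁻¹ * a * g⁻¹⁻¹) * x) * g⁻¹ := by group
    rw [h3, h4, h2]
  · intro y hy
    have h1 : g⁻¹ * y * g⁻¹⁻¹ ∈ F := hF.conj_mem y hy g⁻¹
    have h2 : ⁅g * x * g⁻¹, y⁆ = g * ⁅x, g⁻¹ * y * g⁻¹⁻¹⁆ * g⁻¹ := by
      simp only [commutatorElement_def]; group
    rw [h2]
    exact hA.conj_mem _ (hxc _ h1) g

theorem t_CRIT : S_CRIT := by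
  intro Γ _ _ F hF hnil
  obtain ⟨A, ⟨hAF, hA, hAab⟩, hmax⟩ : ∃ A : Subgroup Γ,
      (A ≤ F ∧ A.Normal ∧ ∀ x ∈ A, ∀ y ∈ A, x * y = y * x) ∧
      ∀ B : Subgroup Γ, B ≤ F → B.Normal → (∀ x ∈ B, ∀ y ∈ B, x * y = y * x) → A ≤ B → B ≤ A := by
    have hfin : {A : Subgroup Γ | A ≤ F ∧ A.Normal ∧ ∀ x ∈ A, ∀ y ∈ A, x * y = y * x}.Finite :=
      Set.toFinite _
    obtain ⟨A, hA⟩ := hfin.exists_maximal ⟨⊥, bot_le, inferInstance, by
      intro x hx y hy
      rw [Subgroup.mem_bot] at hx hy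
      rw [hx, hy]⟩
    exact ⟨A, hA.1, fun B h1 h2 h3 h4 => hA.2 ⟨h1, h2, h3⟩ h4⟩
  have hRn : (critR F A hA).Normal := critR_normal hF hA
  have hAR : A ≤ critR F A hA := by
    intro a ha
    refine mem_critR.2 ⟨hAF ha, fun b hb => hAab a ha b hb, fun y _ => ?_⟩
    rw [commutatorElement_def]
    have h1 : a * y * a⁻¹ * y⁻¹ = a * (y * a⁻¹ * y⁻¹) := by group
    rw [h1]
    exact A.mul_mem ha (hA.conj_mem _ (A.inv_mem ha) y)
  refine ⟨critR F A hA, fun x hx => (mem_critR.1 hx).1, hRn, ?_, ?_⟩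
  · intro x hx y hy z hz
    rw [commutatorElement_eq_one_iff_mul_comm]
    exact ((mem_critR.1 hz).2.1 _ ((mem_critR.1 hx).2.2 y (mem_critR.1 hy).1)).symm
  · -- D₁ = A
    have hD1 : critR F A hA ⊓ Subgroup.centralizer (critR F A hA : Set Γ) ≤ A := by
      have hcn : (Subgroup.centralizer (critR F A hA : Set Γ)).Normal := inferInstance
      refine hmax _ (fun x hx => (mem_critR.1 hx.1).1) inferInstance ?_ ?_
      · intro x hx y hy
        exact Subgroup.mem_centralizer_iff.1 hy.2 x hx.1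
      · intro a ha
        refine ⟨hAR ha, Subgroup.mem_centralizer_iff.2 ?_⟩
        intro y hy
        exact (mem_critR.1 hy).2.1 a ha
    have hcn : (Subgroup.centralizer (critR F A hA : Set Γ)).Normal := inferInstance
    have key : ∀ x ∈ F, x ∈ Subgroup.centralizer (critR F A hA : Set Γ) →
        (∀ y ∈ F, ⁅x, y⁆ ∈ A) → x ∈ A := by
      intro x hxF hxc hxA
      refine hD1 ⟨mem_critR.2 ⟨hxF, ?_, hxA⟩, hxc⟩
      intro a ha
      exact (Subgroup.mem_centralizer_iff.1 hxc a (hAR ha)).symm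
    obtain ⟨n, hn⟩ := (Subgroup.isNilpotent_iff_lowerCentralSeries F).1 hnil
    have hdown : ∀ j i : ℕ, i + j = n → ∀ x ∈ F.lowerCentralSeries i,
        x ∈ Subgroup.centralizer (critR F A hA : Set Γ) → x ∈ A := by
      intro j
      induction j with
      | zero =>
        intro i hi x hx _
        rw [Nat.add_zero] at hi
        subst hi
        rw [hn, Subgroup.mem_bot] at hx
        rw [hx]; exact A.one_mem
      | succ j ih =>
        intro i hi x hx hxc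
        refine key x (F.lowerCentralSeries_le_self i hx) hxc ?_
        intro y hy
        refine ih (i + 1) (by omega) _ ?_ ?_
        · rw [Subgroup.lowerCentralSeries_succ]
          exact Subgroup.commutator_mem_commutator hx hy
        · have h1 : ⁅x, y⁆ = x * (y * x⁻¹ * y⁻¹) := by
            rw [commutatorElement_def]; group
          rw [h1]
          exact Subgroup.mul_mem _ hxc (hcn.conj_mem _ (Subgroup.inv_mem _ hxc) y)
    intro x hxF hx
    refine hAR (hdown n 0 (by omega) x hxF ?_)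
    refine Subgroup.mem_centralizer_iff.2 ?_
    intro y hy
    exact (hx y hy).symm

end Pool.Agent.Run7.h540.NI
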