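import Pool.Agent.Run7.h676.NI.Cl

/-! Piece REPC2 of the project of helper676 (MP_e56c9f_al) -/

set_option autoImplicit false

open scoped commutatorElement
open Pool.Agent.Run7.h676.NI

namespace Pool.Agent.Run7.h540.NI

section

variable {Γ k W : Type} [Group Γ] [Field k] [AddCommGroup W] [Module k W]

lemma rho_mul (ρ : Γ →* (W →ₗ[k] W)) (a b : Γ) (u : W) : ρ (a * b) u = ρ a (ρ b u) := by
  rw [map_mul]; rfl

lemma rho_one (ρ : Γ →* (W →ₗ[k] W)) (u : W) : ρ 1 u = u := by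
  rw [map_one]; rfl

lemma rho_inv (ρ : Γ →* (W →ₗ[k] W)) (a : Γ) (u : W) : ρ a⁻¹ (ρ a u) = u := by
  rw [← rho_mul, inv_mul_cancel, rho_one]

lemma rho_inv' (ρ : Γ →* (W →ₗ[k] W)) (a : Γ) (u : W) : ρ a (ρ a⁻¹ u) = u := by
  rw [← rho_mul, mul_inv_cancel, rho_one]

lemma rho_ne (ρ : Γ →* (W →ₗ[k] W)) (a : Γ) {u : W} (hu : u ≠ 0) : ρ a u ≠ 0 := by
  intro h
  apply hu
  have h1 := rho_inv ρ a u
  rw [h, map_zero] at h1
  exact h1.symm

/-- The stabiliser of the property `P`. -/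
def stabP (ρ : Γ →* (W →ₗ[k] W)) (P : W → Prop) : Subgroup Γ where
  carrier := {γ | ∀ u, P u ↔ P (ρ γ u)}
  one_mem' := fun u => by rw [rho_one]
  mul_mem' := by
    intro a b ha hb u
    rw [rho_mul, ← ha, ← hb]
  inv_mem' := by
    intro a ha u
    have h := ha (ρ a⁻¹ u)
    rw [rho_inv'] at h
    exact h.symm

lemma mem_stabP {ρ : Γ →* (W →ₗ[k] W)} {P : W → Prop} {γ : Γ} :
    γ ∈ stabP ρ P ↔ ∀ u, P u ↔ P (ρ γ u) := Iff.rfl

lemma mem_stabP_of [Finite Γ] {ρ : Γ →* (W →ₗ[k] W)} {P : W → Prop} {γ : Γ}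
    (h : ∀ u, P u → P (ρ γ u)) : γ ∈ stabP ρ P := by
  have hpow : ∀ n : ℕ, ∀ u, P u → P (ρ (γ ^ n) u) := by
    intro n
    induction n with
    | zero => intro u hu; rw [pow_zero, rho_one]; exact hu
    | succ n ih => intro u hu; rw [pow_succ, rho_mul]; exact ih _ (h u hu)
  refine mem_stabP.2 fun u => ⟨h u, fun hu => ?_⟩
  have h1 := hpow (orderOf γ - 1) _ hu
  have h2 : γ ^ (orderOf γ - 1) = γ⁻¹ := by
    have hpos : 0 < orderOf γ := orderOf_pos γ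
    rw [eq_inv_iff_mul_eq_one, ← pow_succ, Nat.sub_add_cancel hpos, pow_orderOf_eq_one]
  rw [h2, rho_inv] at h1
  exact h1

lemma conj_mem_of_comm {R Q : Subgroup Γ} (hQR : Q ≤ R)
    (hc : ∀ x ∈ R, ∀ y ∈ R, ⁅x, y⁆ ∈ Q) {n y : Γ} (hn : n ∈ R) (hy : y ∈ Q) :
    n⁻¹ * y * n ∈ Q := by
  have h1 : n⁻¹ * y * n = y * ⁅y⁻¹, n⁻¹⁆ := by
    rw [commutatorElement_def]; group
  rw [h1]
  exact Q.mul_mem hy (hc _ (R.inv_mem (hQR hy)) _ (R.inv_mem hn))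

end

theorem t_REPC2 (h1 : S_GPA) (h2 : S_RAD) : S_REPC2 := by
  intro Γ k W _ _ _ _ _ _ ρ p R V U Q w w₁ hV hRn hR hpR hG hRadQ hQR hBQ hw₁ hsame hχ
  obtain ⟨_, B, hB⟩ := h2 Γ R V U hR hG.nin
  have hBm : ∀ b, b ∈ B ↔ b ∈ Stb V R U := by
    intro b
    rw [← hB]; rfl
  have hBea : EA p B :=
    { prime := hV.prime
      comm := fun v hv w hw => hV.comm v ((hBm v).1 hv).1 w ((hBm w).1 hw).1
      exp := fun v hv => hV.exp v ((hBm v).1 hv).1 }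
  -- the eigenvalues
  obtain ⟨χ, hχ'⟩ : ∃ χ : Γ → k, ∀ y ∈ Q, ρ y w₁ = χ y • w₁ := by
    classical
    choose f hf using hχ
    refine ⟨fun y => if h : y ∈ Q then f y h else 0, fun y hy => ?_⟩
    simp only [dif_pos hy]
    exact hf y hy
  have hcQ : ∀ x ∈ R, ∀ y ∈ R, ⁅x, y⁆ ∈ Q := fun x hx y hy => hRadQ (comm_mem_Rad hR hx hy)
  let P : W → Prop := fun u => ∀ y ∈ Q, ρ y u = χ y • u
  have hPw : P w₁ := hχ'
  have hQS : ∀ z ∈ Q, z ∈ stabP ρ P := by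
    intro z hz
    refine mem_stabP_of fun u hu => ?_
    intro y hy
    rw [hu z hz, map_smul, hu y hy, smul_comm]
  obtain ⟨n, hn, hnS⟩ := h1 Γ p R (stabP ρ P) B hBea hRn hpR
    (fun x hx y hy => hQS _ (hcQ x hx y hy))
  have hQn : ∀ m ∈ R, ∀ y ∈ Q, m⁻¹ * y * m ∈ Q := fun m hm y hy => conj_mem_of_comm hQR hcQ hm hy
  -- fixing by U
  have hUw₁ : ∀ u ∈ U, ρ u w₁ = w₁ := by
    intro u hu
    have h3 := hsame u (U_sub_Rad hG.nin hu) 1 (by rw [hG.fixU u hu, one_smul])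
    rw [h3, one_smul]
  have hw' : ∀ y ∈ Q, ρ y (ρ n w₁) = χ (n⁻¹ * y * n) • ρ n w₁ := by
    intro y hy
    have h3 : y * n = n * (n⁻¹ * y * n) := by group
    rw [← rho_mul, h3, rho_mul, hχ' _ (hQn n hn y hy), map_smul]
  refine ⟨ρ n w₁, rho_ne ρ n hw₁, ?_, fun y hy => ⟨_, hw' y hy⟩, ?_⟩
  · intro x hx c hc
    have h4 : x * n = n * (x * ⁅x⁻¹, n⁻¹⁆) := by
      rw [commutatorElement_def]; group
    have h5 : ⁅x⁻¹, n⁻¹⁆ ∈ U := by
      rw [cl2_invL hR hx.1 (R.inv_mem hn)]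
      exact U.inv_mem (hx.2 _ (R.inv_mem hn))
    rw [← rho_mul, h4, rho_mul, rho_mul, hUw₁ _ h5, hsame x hx c hc, map_smul]
  · intro b hb hbs x hx y hy
    have hbB : b ∈ B := (hBm b).2 hb
    have hbB' : b⁻¹ ∈ B := B.inv_mem hbB
    have hb' : b⁻¹ ∈ Stb V R U := (hBm _).1 hbB'
    have hbQ : ∀ y ∈ Q, b⁻¹ * y * b ∈ Q := by
      intro y hy
      have h3 := hBQ b⁻¹ hb' y hy
      rwa [inv_inv] at h3
    have hwne : ρ b (ρ n w₁) ≠ 0 := rho_ne ρ b (rho_ne ρ n hw₁)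
    have hχb : ∀ y ∈ Q, χ (n⁻¹ * (b⁻¹ * y * b) * n) = χ (n⁻¹ * y * n) := by
      intro y hy
      have h3 := hbs y hy _ (hw' y hy)
      have h4 : y * b = b * (b⁻¹ * y * b) := by group
      rw [← rho_mul, h4, rho_mul, hw' _ (hbQ y hy), map_smul] at h3
      exact smul_left_injective k hwne h3
    have hbS : n⁻¹ * b * n ∈ stabP ρ P := by
      refine mem_stabP_of fun u hu => ?_
      intro y hy
      have hy₁ : n * y * n⁻¹ ∈ Q := by
        have h3 := hQn n⁻¹ (R.inv_mem hn) y hy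
        rwa [inv_inv] at h3
      have h4 : y * (n⁻¹ * b * n) = (n⁻¹ * b * n) * (n⁻¹ * (b⁻¹ * (n * y * n⁻¹) * b) * n) := by
        group
      have h5 : n⁻¹ * (b⁻¹ * (n * y * n⁻¹) * b) * n ∈ Q := hQn n hn _ (hbQ _ hy₁)
      have h6 : n⁻¹ * (n * y * n⁻¹) * n = y := by group
      rw [← rho_mul, h4, rho_mul, hu _ h5, map_smul, hχb _ hy₁, h6]
    have hall := hnS b hbB hbS
    have hbS1 : b ∈ stabP ρ P := by
      have h3 := hall 1 R.one_mem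
      simpa using h3
    have hrS : x⁻¹ * (b * x * b⁻¹) ∈ stabP ρ P := by
      have h3 : x⁻¹ * (b * x * b⁻¹) = x⁻¹ * b * x * b⁻¹ := by group
      rw [h3]
      exact (stabP ρ P).mul_mem (hall x hx) ((stabP ρ P).inv_mem hbS1)
    have hrR : x⁻¹ * (b * x * b⁻¹) ∈ R := R.mul_mem (R.inv_mem hx) (hRn.conj_mem x hx b)
    generalize x⁻¹ * (b * x * b⁻¹) = r at hrS hrR ⊢
    have hyR : y ∈ R := hQR hy
    have h7 : ρ y (ρ r w₁) = χ y • ρ r w₁ := ((mem_stabP.1 hrS w₁).1 hPw) y hy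
    have h8 : ρ r (ρ y w₁) = χ y • ρ r w₁ := by rw [hχ' y hy, map_smul]
    have h9 : ρ ⁅r, y⁆ w₁ = w₁ := by
      have h10 : ⁅r, y⁆ = (y * r)⁻¹ * (r * y) := by
        have h11 : ⁅r⁻¹, y⁻¹⁆ = ⁅r, y⁆ := by
          rw [cl2_invR hR (R.inv_mem hrR) hyR, cl2_invL hR hrR hyR, inv_inv]
        rw [← h11, commutatorElement_def]; group
      rw [h10, rho_mul, rho_mul ρ r y, h8, ← h7, ← rho_mul ρ y r, rho_inv]
    have hrad : ⁅r, y⁆ ∈ Rad R U := comm_mem_Rad hR hrR hyR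
    obtain ⟨c, hc⟩ := hG.eig _ hrad
    have h12 := hsame _ hrad c hc
    rw [h9] at h12
    have h13 : (1 : k) = c := by
      apply smul_left_injective k hw₁
      simp only [one_smul]
      exact h12
    refine hG.mem _ hrad ?_
    rw [hc, ← h13, one_smul]

end Pool.Agent.Run7.h540.NI
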