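import Pool.Agent.Run7.h540.NI.REPC2

/-! Piece REPD of the project of helper676 (MP_e56c9f_al) -/

set_option autoImplicit false

open scoped commutatorElement
open Pool.Agent.Run7.h676.NI

namespace Pool.Agent.Run7.h540.NI

lemma conj_back {Γ : Type} [Group Γ] [Finite Γ] (S : Set Γ) (v : Γ)
    (h : ∀ x ∈ S, v⁻¹ * x * v ∈ S) : ∀ x ∈ S, v * x * v⁻¹ ∈ S := by
  have hpow : ∀ n : ℕ, ∀ x ∈ S, (v ^ n)⁻¹ * x * v ^ n ∈ S := by
    intro n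
    induction n with
    | zero => intro x hx; simpa using hx
    | succ n ih =>
      intro x hx
      have h1 := ih _ (h x hx)
      have h2 : (v ^ (n + 1))⁻¹ * x * v ^ (n + 1) = (v ^ n)⁻¹ * (v⁻¹ * x * v) * v ^ n := by
        have h3 : v ^ (n + 1) = v * v ^ n := pow_succ' v n
        rw [h3]; group
      rw [h2]; exact h1
  intro x hx
  have h1 := hpow (orderOf v - 1) x hx
  have h2 : v ^ (orderOf v - 1) = v⁻¹ := by
    have hpos : 0 < orderOf v := orderOf_pos v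
    rw [eq_inv_iff_mul_eq_one, ← pow_succ, Nat.sub_add_cancel hpos, pow_orderOf_eq_one]
  rw [h2, inv_inv] at h1
  exact h1

lemma proj_step (hP : S_PROJ) {Γ k W : Type} [Group Γ] [Field k] [AddCommGroup W] [Module k W]
    (ρ : Γ →* (W →ₗ[k] W)) (w' : W) (T : Finset Γ) (J : Set Γ)
    (hJ : ∀ v ∈ T, ∀ j ∈ J, v⁻¹ * j * v ∈ J) (χ : Γ → k) (hχ : ∀ j ∈ J, ρ j w' = χ j • w')
    (hsum : ∑ v ∈ T, ρ v w' = 0) :
    ∃ T' : Finset Γ, (∀ v, v ∈ T' ↔ v ∈ T ∧ ∀ j ∈ J, χ (v⁻¹ * j * v) = χ j) ∧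
      ∑ v ∈ T', ρ v w' = 0 := by
  classical
  refine ⟨T.filter (fun v => ∀ j ∈ J, χ (v⁻¹ * j * v) = χ j), fun v => Finset.mem_filter, ?_⟩
  refine hP k W Γ J T (fun v => ρ v w') (fun j => ρ j) (fun v j => χ (v⁻¹ * j * v))
    (fun j => χ j) ?_ hsum _ ?_
  · intro v hv j
    have h1 : (j : Γ) * v = v * (v⁻¹ * j * v) := by group
    change ρ j (ρ v w') = χ (v⁻¹ * j * v) • ρ v w'
    rw [← rho_mul, h1, rho_mul, hχ _ (hJ v hv j j.2), map_smul]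
  · intro v
    rw [Finset.mem_filter, funext_iff]
    constructor
    · rintro ⟨h1, h2⟩
      exact ⟨h1, fun j => h2 j j.2⟩
    · rintro ⟨h1, h2⟩
      exact ⟨h1, fun j hj => h2 ⟨j, hj⟩⟩

theorem t_REPD (h : S_PROJ) : S_REPD := by
  classical
  intro Γ k W _ _ _ _ _ _ ρ R V U Q _ w w' hRn hR hG hRadQ hQR hBQ hw' hsame hχ hlast hsum
  -- eigenvalues
  obtain ⟨ψ, hψ⟩ : ∃ ψ : Γ → k, ∀ x ∈ Rad R U, ρ x w = ψ x • w := by
    choose f hf using hG.eig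
    refine ⟨fun y => if h : y ∈ Rad R U then f y h else 0, fun y hy => ?_⟩
    simp only [dif_pos hy]
    exact hf y hy
  obtain ⟨χ, hχ'⟩ : ∃ χ : Γ → k, ∀ y ∈ Q, ρ y w' = χ y • w' := by
    choose f hf using hχ
    refine ⟨fun y => if h : y ∈ Q then f y h else 0, fun y hy => ?_⟩
    simp only [dif_pos hy]
    exact hf y hy
  have hψ' : ∀ x ∈ Rad R U, ρ x w' = ψ x • w' := fun x hx => hsame x hx _ (hψ x hx)
  have hcR : ∀ (v : Γ), ∀ x ∈ R, v⁻¹ * x * v ∈ R := by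
    intro v x hx
    have h1 := hRn.conj_mem x hx v⁻¹
    rwa [inv_inv] at h1
  -- step 1
  let Z : Set Γ := {z | z ∈ R ∧ ∀ y ∈ R, z * y = y * z}
  have hZn : ∀ (v : Γ), ∀ z ∈ Z, v⁻¹ * z * v ∈ Z := by
    rintro v z ⟨hz, hzc⟩
    refine ⟨hcR v z hz, fun y hy => ?_⟩
    have h1 := hzc _ (hRn.conj_mem y hy v)
    have h2 : v⁻¹ * z * v * y = v⁻¹ * (z * (v * y * v⁻¹)) * v := by group
    have h3 : y * (v⁻¹ * z * v) = v⁻¹ * ((v * y * v⁻¹) * z) * v := by group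
    rw [h2, h3, h1]
  have hZR : ∀ z ∈ Z, z ∈ Rad R U := by
    rintro z ⟨hz, hzc⟩
    refine ⟨hz, fun y hy => ?_⟩
    rw [commutatorElement_eq_one_iff_mul_comm.2 (hzc y hy)]
    exact U.one_mem
  obtain ⟨T₁, hT₁, hs1⟩ := proj_step h ρ w' _ Z (fun v _ z hz => hZn v z hz) ψ
    (fun z hz => hψ' z (hZR z hz)) hsum
  -- step 2
  have hRad1 : ∀ v ∈ T₁, ∀ x ∈ Rad R U, v⁻¹ * x * v ∈ Rad R U := by
    intro v hv x hx
    have hvZ := ((hT₁ v).1 hv).2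
    refine ⟨hcR v x hx.1, fun y hy => ?_⟩
    have hyv : v * y * v⁻¹ ∈ R := hRn.conj_mem y hy v
    have h1 : ⁅v⁻¹ * x * v, y⁆ = v⁻¹ * ⁅x, v * y * v⁻¹⁆ * v := by
      simp only [commutatorElement_def]; group
    rw [h1]
    have hzU : ⁅x, v * y * v⁻¹⁆ ∈ U := hx.2 _ hyv
    have hzZ : ⁅x, v * y * v⁻¹⁆ ∈ Z :=
      ⟨comm_mem hx.1 hyv, fun y' hy' => cl2_comm hR hx.1 hyv hy'⟩
    refine hG.mem _ (hZR _ (hZn v _ hzZ)) ?_
    rw [hψ _ (hZR _ (hZn v _ hzZ)), hvZ _ hzZ, ← hψ _ (hZR _ hzZ)]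
    exact hG.fixU _ hzU
  obtain ⟨T₂, hT₂, hs2⟩ := proj_step h ρ w' T₁ (Rad R U) hRad1 ψ hψ' hs1
  -- step 3
  have hStb : ∀ v ∈ T₂, v ∈ Stb V R U := by
    intro v hv
    obtain ⟨hv1, hvψ⟩ := (hT₂ v).1 hv
    have hvV : v ∈ V := (Finset.mem_filter.1 ((hT₁ v).1 hv1).1).2
    refine ⟨hvV, fun r hr => ?_⟩
    have hvr : v * r * v⁻¹ ∈ Rad R U := conj_back (Rad R U) v (hRad1 v hv1) r hr
    have h1 := hvψ _ hvr
    have h2 : v⁻¹ * (v * r * v⁻¹) * v = r := by group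
    rw [h2] at h1
    have hmem : r⁻¹ * (v * r * v⁻¹) ∈ Rad R U := by
      refine ⟨R.mul_mem (R.inv_mem hr.1) hvr.1, fun y hy => ?_⟩
      rw [cl2_mulL hR (R.inv_mem hr.1) hvr.1 hy, cl2_invL hR hr.1 hy]
      exact U.mul_mem (U.inv_mem (hr.2 y hy)) (hvr.2 y hy)
    refine hG.mem _ hmem ?_
    rw [rho_mul, hψ _ hvr, ← h1, ← hψ _ hr, rho_inv]
  have hQ2 : ∀ v ∈ T₂, ∀ y ∈ (Q : Set Γ), v⁻¹ * y * v ∈ (Q : Set Γ) := by
    intro v hv y hy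
    have h1 := conj_back (Q : Set Γ) v⁻¹ (by
      intro x hx
      rw [inv_inv]
      exact hBQ v (hStb v hv) x hx) y hy
    rwa [inv_inv] at h1
  obtain ⟨T₃, hT₃, hs3⟩ := proj_step h ρ w' T₂ (Q : Set Γ) hQ2 χ hχ' hs2
  have hT3 : T₃ = {1} := by
    ext v
    rw [hT₃, Finset.mem_singleton]
    constructor
    · rintro ⟨hv, hvχ⟩
      refine hlast v (hStb v hv) ?_
      intro x hx c hc
      have h1 : x * v = v * (v⁻¹ * x * v) := by group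
      rw [← rho_mul, h1, rho_mul, hχ' _ (hQ2 v hv x hx), hvχ x hx, ← hχ' x hx, hc, map_smul]
    · rintro rfl
      refine ⟨?_, fun j _ => by simp⟩
      rw [hT₂]
      refine ⟨?_, fun j _ => by simp⟩
      rw [hT₁, Finset.mem_filter]
      exact ⟨⟨Finset.mem_univ _, V.one_mem⟩, fun j _ => by simp⟩
  rw [hT3, Finset.sum_singleton, rho_one] at hs3
  exact hw' hs3

end Pool.Agent.Run7.h540.NI
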