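import Pool.Agent.Run7.h676.NI.Cl

/-! Piece HOMK of the project of helper676 (MP_e56c9f_al) -/

set_option autoImplicit false

open scoped commutatorElement
open Pool.Agent.Run7.h676.NI

namespace Pool.Agent.Run7.h540.NI

lemma exists_dual_add (q : ℕ) [Fact q.Prime] (M : Type) [AddCommGroup M] [Module (ZMod q) M]
    (m : M) (hm : m ≠ 0) : ∃ f : M → AlgebraicClosure (ZMod q),
      (∀ x y : M, f (x + y) = f x + f y) ∧ f m ≠ 0 := by
  obtain ⟨φ, hφ⟩ : ∃ φ : M →ₗ[ZMod q] ZMod q, φ m ≠ 0 := by
    by_contra hcon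
    push Not at hcon
    exact hm ((Module.forall_dual_apply_eq_zero_iff (ZMod q) m).1 hcon)
  refine ⟨fun x => algebraMap (ZMod q) (AlgebraicClosure (ZMod q)) (φ x), ?_, ?_⟩
  · intro x y
    simp only [map_add]
  · intro h
    rw [map_eq_zero] at h
    exact hφ h

lemma exists_dual_mul (q : ℕ) [Fact q.Prime] (M : Type) [CommGroup M]
    (hexp : ∀ m : M, m ^ q = 1) (m : M) (hm : m ≠ 1) : ∃ f : M → AlgebraicClosure (ZMod q),
      (∀ x y : M, f (x * y) = f x + f y) ∧ f m ≠ 0 := by
  let hmod : Module (ZMod q) (Additive M) :=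
    AddCommGroup.zmodModule (n := q) (fun x => hexp (Additive.toMul x))
  obtain ⟨f, hf1, hf2⟩ := exists_dual_add q (Additive M) (Additive.ofMul m) (fun h => hm h)
  exact ⟨fun x => f (Additive.ofMul x), fun x y => hf1 (Additive.ofMul x) (Additive.ofMul y), hf2⟩

theorem t_HOMK : S_HOMK := by
  intro Γ _ _ L M hL hML hM hne hmin
  have hMs : Group.IsSolvable M := by
    have := hL
    exact Group.isSolvable_of_isSolvable_injective (Subgroup.inclusion_injective hML)
  have hnt : Nontrivial M := (Subgroup.nontrivial_iff_ne_bot M).2 hne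
  have hab : ⁅M, M⁆ = ⊥ := by
    rcases hmin ⁅M, M⁆ inferInstance (Subgroup.commutator_le_left M M) with h | h
    · exact h
    · exfalso
      have h2 := Group.IsSolvable.commutator_lt_top_of_nontrivial (G := M)
      have h3 : (_root_.commutator M).map M.subtype = M := by
        rw [Subgroup.map_subtype_commutator, h]
      have h4 : _root_.commutator M = ⊤ := by
        apply Subgroup.map_injective M.subtype_injective
        rw [h3, ← MonoidHom.range_eq_map, Subgroup.range_subtype]
      exact h2.ne h4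
  have hcomm : ∀ x ∈ M, ∀ y ∈ M, x * y = y * x := by
    intro x hx y hy
    have h := Subgroup.commutator_mem_commutator hx hy
    rw [hab, Subgroup.mem_bot] at h
    exact commutatorElement_eq_one_iff_mul_comm.1 h
  refine ⟨hcomm, ?_⟩
  have hc1 : Nat.card M ≠ 1 := by
    intro h
    exact hne (Subgroup.card_eq_one.1 h)
  obtain ⟨q, hq, hqd⟩ := Nat.exists_prime_and_dvd hc1
  have hqf : Fact q.Prime := ⟨hq⟩
  refine ⟨q, hqf, hqd, ?_⟩
  -- M has exponent q
  let T : Subgroup Γ :=
    { carrier := {m | m ∈ M ∧ m ^ q = 1}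
      one_mem' := ⟨M.one_mem, one_pow q⟩
      mul_mem' := by
        rintro a b ⟨ha, ha'⟩ ⟨hb, hb'⟩
        refine ⟨M.mul_mem ha hb, ?_⟩
        have hcm : Commute a b := hcomm a ha b hb
        rw [hcm.mul_pow, ha', hb', one_mul]
      inv_mem' := by
        rintro a ⟨ha, ha'⟩
        refine ⟨M.inv_mem ha, ?_⟩
        rw [inv_pow, ha', inv_one] }
  have hTn : T.Normal := by
    constructor
    rintro m ⟨hm, hm'⟩ g
    refine ⟨hM.conj_mem m hm g, ?_⟩
    rw [conj_pow, hm', mul_one, mul_inv_cancel]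
  have hTM : T ≤ M := fun m hm => hm.1
  have hTne : T ≠ ⊥ := by
    intro h
    obtain ⟨m, hm⟩ := exists_prime_orderOf_dvd_card' (G := M) q hqd
    have h1 : (m : Γ) ∈ T := by
      refine ⟨m.2, ?_⟩
      have h2 : m ^ q = 1 := by rw [← hm]; exact pow_orderOf_eq_one m
      have h3 := congrArg (fun z : M => (z : Γ)) h2
      simpa using h3
    rw [h, Subgroup.mem_bot] at h1
    have h4 : m = 1 := by exact_mod_cast h1
    rw [h4, orderOf_one] at hm
    exact hq.one_lt.ne hm
  have hTM' : T = M := (hmin T hTn hTM).resolve_left hTne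
  have hexp : ∀ m : M, m ^ q = 1 := by
    intro m
    have h1 : (m : Γ) ∈ T := by rw [hTM']; exact m.2
    have h2 : (m : Γ) ^ q = 1 := h1.2
    exact_mod_cast h2
  let hCG : CommGroup M :=
    { (inferInstance : Group M) with
      mul_comm := fun a b => Subtype.ext (hcomm a a.2 b b.2) }
  obtain ⟨m, hm⟩ := exists_ne (1 : M)
  obtain ⟨f, hf1, hf2⟩ := exists_dual_mul q M hexp m hm
  refine ⟨f, hf1, ?_⟩
  intro h
  apply hf2
  rw [h]
  rfl

end Pool.Agent.Run7.h540.NI
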